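import Mathlib

set_option autoImplicit false

namespace Pool.Agent.Results.MP_9a8bc6_lc.Binary

open Set Pointwise

/-- one suffix-square or prefix-square completion step -/
def Step (w w' : List (Fin 2)) : Prop :=
  (∃ p x y : List (Fin 2), w = p ++ (y ++ x ++ y) ∧ w' = w ++ x) ∨
  (∃ s x y : List (Fin 2), w = (y ++ x ++ y) ++ s ∧ w' = x ++ w)

/-- the language `L(w)` -/
def L (w : List (Fin 2)) : Set (List (Fin 2)) := {u | Relation.ReflTransGen Step w u}

/-- the Parikh vector -/
def psi (u : List (Fin 2)) : Fin 2 → ℕ := fun i => u.count i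

theorem pumpR (p : List (Fin 2)) (c : Fin 2) (n : ℕ) :
    Relation.ReflTransGen Step (p ++ [c]) (p ++ [c] ++ List.replicate n c) := by
  induction n with
  | zero => simpa using Relation.ReflTransGen.refl
  | succ n ih =>
    refine ih.tail (Or.inl ⟨p ++ List.replicate n c, [c], [], ?_, ?_⟩)
    · have : [c] ++ List.replicate n c = List.replicate n c ++ [c] := by
        rw [← List.replicate_succ']; rfl
      simp only [List.nil_append, List.append_nil, List.append_assoc, this]
    · rw [List.replicate_succ']; simp only [List.append_assoc]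

theorem pumpL (s : List (Fin 2)) (c : Fin 2) (n : ℕ) :
    Relation.ReflTransGen Step (c :: s) (List.replicate n c ++ c :: s) := by
  induction n with
  | zero => simpa using Relation.ReflTransGen.refl
  | succ n ih =>
    refine ih.tail (Or.inr ⟨List.replicate n c ++ s, [c], [], ?_, ?_⟩)
    · have : [c] ++ List.replicate n c = List.replicate n c ++ [c] := by
        rw [← List.replicate_succ']; rfl
      rw [List.nil_append, List.append_nil, ← List.append_assoc, this]; simp
    · rw [List.replicate_succ]; simp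

theorem step_ext {u v : List (Fin 2)} (h : Step u v) :
    ∃ x : List (Fin 2), (v = u ++ x ∨ v = x ++ u) ∧ x.length ≤ u.length ∧ ∀ c ∈ x, c ∈ u := by
  rcases h with ⟨p, x, y, h1, h2⟩ | ⟨p, x, y, h1, h2⟩
  · refine ⟨x, Or.inl h2, by rw [h1]; simp; omega, fun c hc => by rw [h1]; simp [hc]⟩
  · refine ⟨x, Or.inr h2, by rw [h1]; simp; omega, fun c hc => by rw [h1]; simp [hc]⟩

theorem absent {w u : List (Fin 2)} (h : u ∈ L w) {c : Fin 2} (hc : c ∉ w) : c ∉ u := by
  induction h with
  | refl => exact hc
  | tail _ hs ih =>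
    obtain ⟨x, hx, _, hm⟩ := step_ext hs
    intro h
    rcases hx with rfl | rfl <;> rcases List.mem_append.1 h with h | h
    exacts [ih h, ih (hm _ h), ih (hm _ h), ih h]

/-- mixed words -/
def Mixed (u : List (Fin 2)) : Prop := ∃ c d m, c ≠ d ∧ u = c :: (m ++ [d])

theorem fin2 {c d : Fin 2} (h : c ≠ d) (i : Fin 2) : i = c ∨ i = d := by
  revert c d i; decide

theorem other (c : Fin 2) : ∃ d, c ≠ d := by
  revert c; decide

theorem mixed_up {w u : List (Fin 2)} (hu : u ∈ L w) (hm : Mixed u) (v : Fin 2 → ℕ)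
    (hv : psi u ≤ v) : v ∈ psi '' L w := by
  obtain ⟨c, d, m, hcd, rfl⟩ := hm
  have h1 := pumpR (c :: m) d (v d - psi (c :: (m ++ [d])) d)
  have h2 := pumpL (m ++ [d] ++ List.replicate (v d - psi (c :: (m ++ [d])) d) d) c
    (v c - psi (c :: (m ++ [d])) c)
  refine ⟨_, (Relation.ReflTransGen.trans hu h1).trans h2, ?_⟩
  funext i
  have hc := hv c
  have hd := hv d
  rcases fin2 hcd i with rfl | rfl
  · simp [psi, List.count_replicate, hcd, hcd.symm] at hc ⊢; omega
  · simp [psi, List.count_replicate, hcd, hcd.symm] at hd ⊢; omega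

theorem end_up {w u : List (Fin 2)} (hu : u ∈ L w) {c d : Fin 2} (hcd : c ≠ d)
    (he : u.head? = some d ∨ u.getLast? = some d) (v : Fin 2 → ℕ)
    (hc : v c = psi u c) (hd : psi u d ≤ v d) : v ∈ psi '' L w := by
  rcases he with he | he
  · obtain ⟨s, rfl⟩ := List.head?_eq_some_iff.1 he
    refine ⟨_, Relation.ReflTransGen.trans hu (pumpL s d (v d - psi (d :: s) d)), ?_⟩
    funext i
    rcases fin2 hcd i with rfl | rfl
    · simp [psi, List.count_replicate, hcd, hcd.symm] at hc ⊢; omega
    · simp [psi, List.count_replicate] at hd ⊢; omega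
  · obtain ⟨s, rfl⟩ := List.getLast?_eq_some_iff.1 he
    refine ⟨_, Relation.ReflTransGen.trans hu (pumpR s d (v d - psi (s ++ [d]) d)), ?_⟩
    funext i
    rcases fin2 hcd i with rfl | rfl
    · simp [psi, List.count_replicate, hcd, hcd.symm] at hc ⊢; omega
    · simp [psi, List.count_replicate] at hd ⊢; omega

theorem mixed_of {u : List (Fin 2)} {c d : Fin 2} (hcd : c ≠ d) (h1 : u.head? = some c)
    (h2 : u.getLast? = some d) : Mixed u := by
  obtain ⟨s, rfl⟩ := List.head?_eq_some_iff.1 h1
  rcases List.eq_nil_or_concat s with rfl | ⟨m, e, rfl⟩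
  · simp at h2; exact absurd h2 hcd
  · refine ⟨c, d, m, hcd, ?_⟩
    have : (c :: m.concat e).getLast? = some e := by
      rw [List.getLast?_eq_some_iff]; exact ⟨c :: m, by simp⟩
    rw [this] at h2
    simp at h2; simp [h2]

theorem inv {w : List (Fin 2)} {c e : Fin 2} {j : ℕ} (hw : w.head? = some e)
    (hno : ∀ u ∈ L w, psi u c ≤ j → ¬ Mixed u) {u : List (Fin 2)} (hu : u ∈ L w)
    (hj : psi u c ≤ j) : u.head? = some e ∧ u.getLast? = some e ∧
      (e = c → u.length ≤ 2 ^ psi u c * w.length) := by
  have key : ∀ u ∈ L w, psi u c ≤ j → (u.head? = some e ∨ u.getLast? = some e) →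
      u.head? = some e ∧ u.getLast? = some e := by
    intro u hu hj h
    have hne : u ≠ [] := by rintro rfl; simp at h
    obtain ⟨a, ha⟩ : ∃ a, u.head? = some a := by
      cases u with
      | nil => exact absurd rfl hne
      | cons a s => exact ⟨a, rfl⟩
    obtain ⟨b, hb⟩ : ∃ b, u.getLast? = some b := ⟨_, List.getLast?_eq_some_getLast hne⟩
    have hab : a = b := by
      by_contra hab
      exact hno u hu hj (mixed_of hab ha hb)
    subst hab
    rw [ha, hb] at h ⊢
    rcases h with h | h <;> exact ⟨h, h⟩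
  induction hu with
  | refl =>
    obtain ⟨h1, h2⟩ := key w Relation.ReflTransGen.refl hj (Or.inl hw)
    exact ⟨h1, h2, fun _ => Nat.le_mul_of_pos_left _ (by positivity)⟩
  | @tail u v hu hs ih =>
    obtain ⟨x, hx, hl, -⟩ := step_ext hs
    have hcount : psi v c = psi u c + x.count c := by
      rcases hx with rfl | rfl <;> simp [psi, add_comm]
    obtain ⟨h1, h2, h3⟩ := ih (by omega)
    have hv := key v (hu.tail hs) hj (by
      rcases hx with rfl | rfl
      · left; rw [List.head?_append, h1]; rfl
      · right; rw [List.getLast?_append, h2]; rfl)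
    refine ⟨hv.1, hv.2, fun hec => ?_⟩
    subst hec
    by_cases hx0 : x = []
    · subst hx0
      have : v = u := by rcases hx with rfl | rfl <;> simp
      subst this; exact h3 rfl
    · have hmem : e ∈ x := by
        rcases hx with rfl | rfl
        · have := hv.2
          rw [List.getLast?_append, List.getLast?_eq_some_getLast hx0] at this
          simp at this
          rw [← this]; exact List.getLast_mem _
        · have := hv.1
          cases x with
          | nil => exact absurd rfl hx0
          | cons a s => simp at this; simp [this]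
      have hpos : 0 < x.count e := List.count_pos_iff.2 hmem
      have hlen : v.length = u.length + x.length := by
        rcases hx with rfl | rfl <;> simp [add_comm]
      have h4 := h3 rfl
      have h5 : 2 ^ (psi u e + 1) ≤ 2 ^ psi v e := Nat.pow_le_pow_right (by norm_num) (by omega)
      calc v.length ≤ 2 * (2 ^ psi u e * w.length) := by omega
        _ = 2 ^ (psi u e + 1) * w.length := by ring
        _ ≤ _ := Nat.mul_le_mul_right _ h5

theorem box_finite {c d : Fin 2} (hcd : c ≠ d) (j N : ℕ) :
    {v : Fin 2 → ℕ | v c = j ∧ v d ≤ N}.Finite := by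
  refine (Set.finite_Iic (fun _ : Fin 2 => j + N)).subset ?_
  rintro v ⟨h1, h2⟩ i
  show v i ≤ j + N
  rcases fin2 hcd i with rfl | rfl <;> omega

theorem ray {c d : Fin 2} (hcd : c ≠ d) (j N : ℕ) :
    IsSemilinearSet {v : Fin 2 → ℕ | v c = j ∧ N ≤ v d} := by
  refine IsLinearSet.isSemilinearSet ⟨fun i => if i = c then j else N, {Pi.single d 1},
    finite_singleton _, ?_⟩
  ext v
  simp only [mem_setOf_eq, mem_vadd_set, SetLike.mem_coe, AddSubmonoid.mem_closure_singleton,
    vadd_eq_add]
  constructor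
  · rintro ⟨h1, h2⟩
    refine ⟨_, ⟨v d - N, rfl⟩, ?_⟩
    funext i
    rcases fin2 hcd i with rfl | rfl
    · simp [hcd, h1]
    · simp [hcd.symm]; omega
  · rintro ⟨_, ⟨n, rfl⟩, rfl⟩
    simp [hcd, hcd.symm]

theorem row (w : List (Fin 2)) (c : Fin 2) (j : ℕ) :
    IsSemilinearSet {v ∈ psi '' L w | v c = j} := by
  obtain ⟨d, hcd⟩ : ∃ d, c ≠ d := other c
  by_cases h : ∃ N, ∀ v : Fin 2 → ℕ, v c = j → N ≤ v d → v ∈ psi '' L w
  · obtain ⟨N, hN⟩ := h
    have : {v ∈ psi '' L w | v c = j} =
        ({v : Fin 2 → ℕ | v c = j ∧ v d ≤ N} ∩ psi '' L w) ∪ {v | v c = j ∧ N ≤ v d} := by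
      ext v
      constructor
      · rintro ⟨h1, h2⟩
        rcases le_total (v d) N with h | h
        exacts [Or.inl ⟨⟨h2, h⟩, h1⟩, Or.inr ⟨h2, h⟩]
      · rintro (⟨⟨h1, _⟩, h2⟩ | ⟨h1, h2⟩)
        exacts [⟨h2, h1⟩, ⟨hN v h1 h2, h1⟩]
    rw [this]
    exact (IsSemilinearSet.of_finite ((box_finite hcd j N).inter_of_left _)).union (ray hcd j N)
  · refine IsSemilinearSet.of_finite ((box_finite hcd j (2 ^ j * w.length)).subset ?_)
    rintro _ ⟨⟨u, hu, rfl⟩, hj⟩
    refine ⟨hj, ?_⟩
    have hno : ∀ u ∈ L w, psi u c ≤ j → ¬ Mixed u := by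
      intro u hu hj hm
      refine h ⟨psi u d, fun v h1 h2 => mixed_up hu hm v fun i => ?_⟩
      rcases fin2 hcd i with rfl | rfl
      exacts [hj.trans h1.ge, h2]
    cases w with
    | nil =>
      have : d ∉ u := absent hu (by simp)
      simp [psi, List.count_eq_zero_of_not_mem this]
    | cons e s =>
      obtain ⟨h1, -, h3⟩ := inv (w := e :: s) (e := e) rfl hno hu hj.le
      rcases fin2 hcd e with rfl | rfl
      · have := h3 rfl
        rw [hj] at this
        exact List.count_le_length.trans this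
      · exact absurd ⟨psi u e, fun v h4 h5 => end_up hu hcd (Or.inl h1) v (by omega) h5⟩ h

theorem result (w : List (Fin 2)) : IsSemilinearSet (psi '' L w) := by
  by_cases h : ∃ c, c ∉ w
  · obtain ⟨c, hc⟩ := h
    have : psi '' L w = {v ∈ psi '' L w | v c = 0} := by
      ext v
      refine ⟨fun hv => ⟨hv, ?_⟩, fun hv => hv.1⟩
      obtain ⟨u, hu, rfl⟩ := hv
      exact List.count_eq_zero_of_not_mem (absent hu hc)
    rw [this]; exact row w c 0
  · push Not at h
    obtain ⟨u, hu, hm⟩ : ∃ u ∈ L w, Mixed u := by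
      cases w with
      | nil => simpa using h 0
      | cons e t =>
        obtain ⟨d, hd⟩ : ∃ d, e ≠ d := other e
        have hdt : d ∈ t := by
          rcases List.mem_cons.1 (h d) with h | h
          exacts [absurd h.symm hd, h]
        obtain ⟨p, s, rfl⟩ := List.append_of_mem hdt
        refine ⟨e :: (p ++ d :: s ++ d :: s ++ [d]), ?_, e, d, _, hd, rfl⟩
        refine (Relation.ReflTransGen.single (b := e :: (p ++ d :: s ++ d :: s))
          (Or.inl ⟨e :: p, d :: s, [], by simp, by simp⟩)).tail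
          (Or.inl ⟨e :: p ++ [d], [d], s, by simp, by simp⟩)
    have : psi '' L w = (psi u +ᵥ (univ : Set (Fin 2 → ℕ))) ∪
        ⋃ c : Fin 2, ⋃ j ∈ Set.Iio (psi u c), {v ∈ psi '' L w | v c = j} := by
      ext v
      simp only [mem_union, mem_iUnion, mem_vadd_set, mem_univ, true_and, vadd_eq_add]
      constructor
      · intro hv
        by_cases hle : psi u ≤ v
        · exact Or.inl ⟨v - psi u, add_tsub_cancel_of_le hle⟩
        · obtain ⟨c, hc⟩ : ∃ c, v c < psi u c := by
            by_contra hh; push Not at hh; exact hle hh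
          exact Or.inr ⟨c, v c, hc, hv, rfl⟩
      · rintro (⟨y, rfl⟩ | ⟨c, j, -, hv, -⟩)
        exacts [mixed_up hu hm _ le_self_add, hv]
    rw [this]
    exact (IsSemilinearSet.univ.vadd _).union
      (IsSemilinearSet.iUnion fun c => IsSemilinearSet.biUnion (finite_Iio _) fun j _ => row w c j)

end Pool.Agent.Results.MP_9a8bc6_lc.Binary
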